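import Pool.Agent.KS6_22.TBP.H.Exprs

set_option autoImplicit false

namespace Pool.Agent.KS6_22.TBP.H

theorem c1 : ∀ i < 4, chk 124 dat 128 8 (2 ^ 26) (E1 0 i) = true := by decide +kernel
theorem c2 : ∀ w < 2, ∀ c < 2, chk 124 dat 384 10 (2 ^ 266) (E2 w c) = true := by decide +kernel
theorem c3 : ∀ p < 3, chk 124 dat 384 10 (2 ^ 257) (E3 p) = true := by decide +kernel
theorem c7 : chk 124 dat 128 8 (2 ^ 81) E7 = true := by decide +kernel
theorem c8 : chk 124 dat 128 8 (2 ^ 83) E8 = true := by decide +kernel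
/-- sup bound of the fundamental matrix -/
theorem cb : ∀ i < 64, 10 * la (dat (16 + i)) ≤ 32 * 2 ^ 80 := by decide +kernel
theorem cr0 : 20 * la (dat 8) ≤ 11 * 2 ^ 80 := by decide +kernel
theorem cr1 : 10 * la (dat 9) ≤ 11 * 2 ^ 80 := by decide +kernel
theorem cr2 : 2 * la (dat 10) ≤ 5 * 2 ^ 80 := by decide +kernel
/-- boundary values at `θ = 0` -/
theorem z0 : ∀ i ∈ [0, 1, 6, 7], 2 * hnI 1 (dat i) - (dat i).headD 0 = 0 := by decide +kernel
theorem z0c : ∀ j < 4, ∀ i ∈ [0, 1, 6, 7],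
    2 * hnI 1 (dat (16 + 8 * j + i)) - (dat (16 + 8 * j + i)).headD 0 = 0 := by decide +kernel
/-- boundary values at `θ = π` -/
theorem zp : ∀ i ∈ [1, 3, 4, 6], 2 * hnI (-1) (dat i) - (dat i).headD 0 = 0 := by decide +kernel
theorem zpc : ∀ j < 4, ∀ i ∈ [1, 3, 4, 6],
    2 * hnI (-1) (dat (16 + 8 * (j + 4) + i)) - (dat (16 + 8 * (j + 4) + i)).headD 0 = 0 := by
  decide +kernel
/-- positivity of the inverse distances at `θ = 0` -/
theorem pr0 : ∀ p < 3, 0 < 2 * hnI 1 (dat (8 + p)) - (dat (8 + p)).headD 0 := by decide +kernel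

end Pool.Agent.KS6_22.TBP.H
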