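import Pool.Agent.KS6_22.TBP.H.Exprs

set_option autoImplicit false

namespace Pool.Agent.KS6_22.TBP.H

theorem c5_4 : ∀ w < 2, ∀ c < 2, chk 124 dat 704 11 (2 ^ 592) (E5 w c 48) = true := by
  decide +kernel
theorem c5_5 : ∀ w < 2, ∀ c < 2, chk 124 dat 704 11 (2 ^ 592) (E5 w c 56) = true := by
  decide +kernel

end Pool.Agent.KS6_22.TBP.H
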