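import Pool.Agent.KS6_22.TBP.H.Data

set_option autoImplicit false

namespace Pool.Agent.KS6_22.TBP.H

/-- scale `2^(80 k)` -/
def sc (k : ℕ) : Ex := .c ((2 ^ (80 * k) : ℕ) : ℤ)

def eneg (e : Ex) : Ex := .mul (.c (-1)) e
def esub (a b : Ex) : Ex := .add a (eneg b)
/-- `2 z` -/
def tX : Ex := .mul (.c 2) (.X 1)
/-- `z^2 - 1` -/
def zs : Ex := .add (.X 2) (.c (-1))
/-- component `c` of pair vector `p` built from the state block with offset `o` -/
def prE (p c o : ℕ) : Ex :=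
  match p with
  | 0 => .add (.s (o + c)) (.s (o + 2 + c))
  | 1 => esub (.s (o + c)) (.s (o + 2 + c))
  | _ => .s (o + 2 + c)
def RE (p : ℕ) : Ex := .s (8 + p)
def R3E (p : ℕ) : Ex := .mul (RE p) (.mul (RE p) (RE p))

/-- defect of `y' = sin θ v` -/
def E1 (o i : ℕ) : Ex := .add (.mul tX (.d (o + i))) (.mul zs (.s (o + i + 4)))

/-- force at the approximate orbit; `w = 0` for `v`, `w = 1` for `w` -/
def FE (w c : ℕ) : Ex :=
  match w with
  | 0 => .mul (.c (-5)) (.add (.mul (R3E 0) (prE 0 c 0)) (.mul (R3E 1) (prE 1 c 0)))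
  | _ => .add (eneg (esub (.mul (R3E 0) (prE 0 c 0)) (.mul (R3E 1) (prE 1 c 0))))
          (eneg (.mul (R3E 2) (prE 2 c 0)))

/-- defect of `v' = sin θ F` -/
def E2 (w c : ℕ) : Ex :=
  .add (.mul tX (.mul (.mul (sc 3) (.X 372)) (.d (4 + 2 * w + c)))) (.mul zs (FE w c))

/-- `R^2 |x|^2 - 1` -/
def E3 (p : ℕ) : Ex :=
  .add (.mul (.mul (RE p) (RE p)) (.add (.mul (prE p 0 0) (prE p 0 0)) (.mul (prE p 1 0) (prE p 1 0))))
    (eneg (.mul (sc 4) (.X 496)))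

/-- linearised pair force -/
def gE (p c o : ℕ) : Ex :=
  .add (.mul (.mul (sc 4) (.X 496)) (.mul (R3E p) (prE p c o)))
    (.mul (.c (-3)) (.mul (.mul (R3E p) (.mul (RE p) (RE p)))
      (.mul (.add (.mul (prE p 0 0) (prE p 0 o)) (.mul (prE p 1 0) (prE p 1 o))) (prE p c 0))))

def LE (w c o : ℕ) : Ex :=
  match w with
  | 0 => .mul (.c (-5)) (.add (gE 0 c o) (gE 1 c o))
  | _ => .add (eneg (esub (gE 0 c o) (gE 1 c o))) (eneg (gE 2 c o))

/-- defect of the variational equation in the velocity block -/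
def E5 (w c o : ℕ) : Ex :=
  .add (.mul tX (.mul (.mul (sc 7) (.X 868)) (.d (o + 4 + 2 * w + c)))) (.mul zs (LE w c o))

/-- sign attached to an index of the symplectic form -/
def sgz (n : ℕ) : ℤ := if n < 4 then -1 else 1
/-- weight attached to an index of the symplectic form -/
def wz (n : ℕ) : ℤ := if n % 4 < 2 then 1 else 5

def tE6 (j k i : ℕ) : Ex :=
  .mul (.c (-(sgz j * sgz i * wz i)))
    (.mul (.s (16 + 8 * ((j + 4) % 8) + (i + 4) % 8)) (.s (16 + 8 * k + i)))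

/-- entry `(j,k)` of `1 - Ψ Φ` -/
def E6 (j k : ℕ) : Ex :=
  .add (.mul (.c (if j = k then 1 else 0)) (.mul (sc 2) (.X 248)))
    (.add (.add (.add (tE6 j k 0) (tE6 j k 1)) (.add (tE6 j k 2) (tE6 j k 3)))
      (.add (.add (tE6 j k 4) (tE6 j k 5)) (.add (tE6 j k 6) (tE6 j k 7))))

/-- `a_x - 9/4` -/
def E7 : Ex := .add (prE 0 0 0) (.mul (.c (-((9 * 2 ^ 78 : ℕ) : ℤ))) (.X 124))

/-- `(b_y - cos θ b_x)(4 + 2 cos θ) - 9/2` -/
def E8 : Ex :=
  .add (.mul (esub (.mul tX (prE 1 1 0)) (.mul (.add (.X 2) (.c 1)) (prE 1 0 0)))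
      (.add (.mul (.c 4) (.X 1)) (.add (.X 2) (.c 1))))
    (.mul (.c (-((9 * 2 ^ 80 : ℕ) : ℤ))) (.X 126))

end Pool.Agent.KS6_22.TBP.H
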