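import Mathlib

set_option autoImplicit false

open Set Filter Topology

namespace Pool.Agent.KS6_22.TBP.H

section
variable {E : Type*} [NormedAddCommGroup E] [NormedSpace ℝ E]

/-- derivative at a point from derivative nearby and continuity -/
theorem deriv_glue {f g : ℝ → E} {b ε : ℝ} (hε : 0 < ε)
    (hd : ∀ y ∈ Ioo (b - ε) (b + ε), y ≠ b → HasDerivAt f (g y) y)
    (cf : ContinuousAt f b) (cg : ContinuousAt g b) : HasDerivAt f (g b) b := by
  have hr : HasDerivWithinAt f (g b) (Ici b) b := by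
    have h1 : DifferentiableOn ℝ f (Ioo b (b + ε)) := fun y hy =>
      (hd y ⟨by linarith [hy.1], hy.2⟩ hy.1.ne').differentiableAt.differentiableWithinAt
    refine hasDerivWithinAt_Ici_of_tendsto_deriv h1 cf.continuousWithinAt
      (Ioo_mem_nhdsGT (by linarith)) ?_
    have h2 : Tendsto g (𝓝[>] b) (𝓝 (g b)) := cg.tendsto.mono_left nhdsWithin_le_nhds
    refine h2.congr' ?_
    filter_upwards [Ioo_mem_nhdsGT (show b < b + ε by linarith)] with y hy
    exact (hd y ⟨by linarith [hy.1], hy.2⟩ hy.1.ne').deriv.symm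
  have hl : HasDerivWithinAt f (g b) (Iic b) b := by
    have h1 : DifferentiableOn ℝ f (Ioo (b - ε) b) := fun y hy =>
      (hd y ⟨hy.1, by linarith [hy.2]⟩ hy.2.ne).differentiableAt.differentiableWithinAt
    refine hasDerivWithinAt_Iic_of_tendsto_deriv h1 cf.continuousWithinAt
      (Ioo_mem_nhdsLT (by linarith)) ?_
    have h2 : Tendsto g (𝓝[<] b) (𝓝 (g b)) := cg.tendsto.mono_left nhdsWithin_le_nhds
    refine h2.congr' ?_
    filter_upwards [Ioo_mem_nhdsLT (show b - ε < b by linarith)] with y hy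
    exact (hd y ⟨hy.1, by linarith [hy.2]⟩ hy.2.ne).deriv.symm
  have := hl.union hr
  rw [Iic_union_Ici] at this
  exact hasDerivWithinAt_univ.mp this

/-- a solution of `x'' = Γ x` on `[a,b]` (continuous up to the ends) -/
structure Sol (Γ : E → E) (x w : ℝ → E) (a b : ℝ) : Prop where
  cx : ContinuousOn x (Icc a b)
  cw : ContinuousOn w (Icc a b)
  dx : ∀ t ∈ Ioo a b, HasDerivAt x (w t) t
  dw : ∀ t ∈ Ioo a b, HasDerivAt w (Γ (x t)) t

/-- reflected position -/
noncomputable def rx (R : E → E) (b : ℝ) (x : ℝ → E) (t : ℝ) : E :=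
  if t ≤ b then x t else R (x (2 * b - t))
/-- reflected velocity -/
noncomputable def rw' (R : E → E) (b : ℝ) (w : ℝ → E) (t : ℝ) : E :=
  if t ≤ b then w t else -R (w (2 * b - t))

theorem reflect (Γ : E → E) (R : E →L[ℝ] E) (hR : ∀ x, Γ (R x) = R (Γ x)) (a b : ℝ) (hab : a < b)
    (x w : ℝ → E) (h : Sol Γ x w a b) (hxb : R (x b) = x b) (hwb : R (w b) = - w b)
    (hΓ : ∀ t ∈ Icc a b, ContinuousAt Γ (x t)) :
    Sol Γ (rx R b x) (rw' R b w) a (2 * b - a) := by
  have e1 : ∀ t ∈ Icc b (2 * b - a), rx R b x t = R (x (2 * b - t)) := by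
    intro t ht
    unfold rx
    split_ifs with h1
    · have : t = b := le_antisymm h1 ht.1
      subst this
      rw [show 2 * t - t = t by ring, hxb]
    · rfl
  have e2 : ∀ t ∈ Icc b (2 * b - a), rw' R b w t = -R (w (2 * b - t)) := by
    intro t ht
    unfold rw'
    split_ifs with h1
    · have : t = b := le_antisymm h1 ht.1
      subst this
      rw [show 2 * t - t = t by ring, hwb, neg_neg]
    · rfl
  have hmap : MapsTo (fun t => 2 * b - t) (Icc b (2 * b - a)) (Icc a b) := by
    intro t ht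
    constructor <;> simp only <;> linarith [ht.1, ht.2]
  have hc2 : ContinuousOn (fun t : ℝ => 2 * b - t) (Icc b (2 * b - a)) := by fun_prop
  have hun : Icc a (2 * b - a) = Icc a b ∪ Icc b (2 * b - a) :=
    (Icc_union_Icc_eq_Icc hab.le (by linarith)).symm
  have cX : ContinuousOn (rx R b x) (Icc a (2 * b - a)) := by
    rw [hun]
    refine ContinuousOn.union_of_isClosed ?_ ?_ isClosed_Icc isClosed_Icc
    · exact h.cx.congr fun t ht => by unfold rx; rw [if_pos ht.2]
    · exact (R.continuous.comp_continuousOn (h.cx.comp hc2 hmap)).congr e1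
  have cW : ContinuousOn (rw' R b w) (Icc a (2 * b - a)) := by
    rw [hun]
    refine ContinuousOn.union_of_isClosed ?_ ?_ isClosed_Icc isClosed_Icc
    · exact h.cw.congr fun t ht => by unfold rw'; rw [if_pos ht.2]
    · exact (R.continuous.comp_continuousOn (h.cw.comp hc2 hmap)).neg.congr e2
  have dlt : ∀ t ∈ Ioo a b, HasDerivAt (rx R b x) (rw' R b w t) t ∧
      HasDerivAt (rw' R b w) (Γ (rx R b x t)) t := by
    intro t ht
    have hev : ∀ᶠ s in 𝓝 t, s ∈ Iio b := Iio_mem_nhds ht.2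
    have v1 : rw' R b w t = w t := by unfold rw'; rw [if_pos ht.2.le]
    have v2 : rx R b x t = x t := by unfold rx; rw [if_pos ht.2.le]
    rw [v1, v2]
    refine ⟨(h.dx t ht).congr_of_eventuallyEq ?_, (h.dw t ht).congr_of_eventuallyEq ?_⟩
    · filter_upwards [hev] with s hs
      unfold rx; rw [if_pos (le_of_lt hs)]
    · filter_upwards [hev] with s hs
      unfold rw'; rw [if_pos (le_of_lt hs)]
  have dgt : ∀ t ∈ Ioo b (2 * b - a), HasDerivAt (rx R b x) (rw' R b w t) t ∧
      HasDerivAt (rw' R b w) (Γ (rx R b x t)) t := by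
    intro t ht
    have hev : ∀ᶠ s in 𝓝 t, s ∈ Ioi b := Ioi_mem_nhds ht.1
    have hm : 2 * b - t ∈ Ioo a b := ⟨by linarith [ht.2], by linarith [ht.1]⟩
    have v1 : rw' R b w t = -R (w (2 * b - t)) := e2 t ⟨ht.1.le, ht.2.le⟩
    have v2 : rx R b x t = R (x (2 * b - t)) := e1 t ⟨ht.1.le, ht.2.le⟩
    rw [v1, v2]
    have hs : HasDerivAt (fun s : ℝ => 2 * b - s) (-1) t := by
      simpa using (hasDerivAt_id t).const_sub (2 * b)
    have d1 : HasDerivAt (fun s => R (x (2 * b - s))) (-R (w (2 * b - t))) t := by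
      have h1 := (h.dx _ hm).scomp t hs
      have h2 := R.hasFDerivAt.comp_hasDerivAt t h1
      refine h2.congr_deriv ?_
      simp
    have d2 : HasDerivAt (fun s => -R (w (2 * b - s))) (Γ (R (x (2 * b - t)))) t := by
      have h1 := (h.dw _ hm).scomp t hs
      have h2 := (R.hasFDerivAt.comp_hasDerivAt t h1).neg
      refine h2.congr_deriv ?_
      rw [hR]
      simp
    refine ⟨d1.congr_of_eventuallyEq ?_, d2.congr_of_eventuallyEq ?_⟩
    · filter_upwards [hev] with s hs
      unfold rx; rw [if_neg (not_le.mpr hs)]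
    · filter_upwards [hev] with s hs
      unfold rw'; rw [if_neg (not_le.mpr hs)]
  have hI : Icc a (2 * b - a) ∈ 𝓝 b := Icc_mem_nhds hab (by linarith)
  have cxb : ContinuousAt (rx R b x) b := cX.continuousAt hI
  have cwb : ContinuousAt (rw' R b w) b := cW.continuousAt hI
  have hxbv : rx R b x b = x b := by unfold rx; rw [if_pos le_rfl]
  have cgb : ContinuousAt (fun t => Γ (rx R b x t)) b := by
    refine ContinuousAt.comp (f := rx R b x) ?_ cxb
    rw [hxbv]
    exact hΓ b ⟨hab.le, le_rfl⟩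
  have near : ∀ y ∈ Ioo (b - (b - a)) (b + (b - a)), y ≠ b →
      HasDerivAt (rx R b x) (rw' R b w y) y ∧ HasDerivAt (rw' R b w) (Γ (rx R b x y)) y := by
    intro y hy hyb
    rcases lt_or_gt_of_ne hyb with h1 | h1
    · exact dlt y ⟨by linarith [hy.1], h1⟩
    · exact dgt y ⟨h1, by linarith [hy.2]⟩
  refine ⟨cX, cW, ?_, ?_⟩
  · intro t ht
    rcases lt_trichotomy t b with h1 | h1 | h1
    · exact (dlt t ⟨ht.1, h1⟩).1
    · subst h1
      exact deriv_glue (ε := t - a) (by linarith) (fun y hy hyb => (near y hy hyb).1) cxb cwb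
    · exact (dgt t ⟨h1, ht.2⟩).1
  · intro t ht
    rcases lt_trichotomy t b with h1 | h1 | h1
    · exact (dlt t ⟨ht.1, h1⟩).2
    · subst h1
      exact deriv_glue (g := fun t => Γ (rx R _ x t)) (ε := t - a) (by linarith)
        (fun y hy hyb => (near y hy hyb).2) cwb cgb
    · exact (dgt t ⟨h1, ht.2⟩).2

/-- periodic extension -/
theorem periodic_ext (Γ : E → E) (T : ℝ) (hT : 0 < T) (x w : ℝ → E) (h : Sol Γ x w 0 T)
    (hx : x 0 = x T) (hw : w 0 = w T) (hΓ : ∀ t ∈ Icc 0 T, ContinuousAt Γ (x t)) :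
    ∃ X W : ℝ → E, (∀ t, X (t + T) = X t) ∧ (∀ t, W (t + T) = W t) ∧
      (∀ t ∈ Icc 0 T, X t = x t) ∧ (∀ t ∈ Icc 0 T, W t = w t) ∧
      (∀ t, HasDerivAt X (W t) t) ∧ (∀ t, HasDerivAt W (Γ (X t)) t) := by
  haveI : Fact (0 < T) := ⟨hT⟩
  set X : ℝ → E := fun t => AddCircle.liftIco T 0 x (t : AddCircle T) with hX
  set W : ℝ → E := fun t => AddCircle.liftIco T 0 w (t : AddCircle T) with hW
  have cX : Continuous X :=
    (AddCircle.liftIco_continuous (by rw [zero_add]; exact hx) (by rw [zero_add]; exact h.cx)).comp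
      (AddCircle.continuous_mk' T)
  have cW : Continuous W :=
    (AddCircle.liftIco_continuous (by rw [zero_add]; exact hw) (by rw [zero_add]; exact h.cw)).comp
      (AddCircle.continuous_mk' T)
  have pX : ∀ t, X (t + T) = X t := fun t => by simp [hX]
  have pW : ∀ t, W (t + T) = W t := fun t => by simp [hW]
  have vX : ∀ t ∈ Ico 0 T, X t = x t := fun t ht =>
    AddCircle.liftIco_coe_apply (by rw [zero_add]; exact ht)
  have vW : ∀ t ∈ Ico 0 T, W t = w t := fun t ht =>
    AddCircle.liftIco_coe_apply (by rw [zero_add]; exact ht)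
  have vX' : ∀ t ∈ Icc 0 T, X t = x t := by
    intro t ht
    rcases lt_or_eq_of_le ht.2 with h1 | h1
    · exact vX t ⟨ht.1, h1⟩
    · rw [h1, ← hx, ← vX 0 ⟨le_rfl, hT⟩, ← pX 0, zero_add]
  have vW' : ∀ t ∈ Icc 0 T, W t = w t := by
    intro t ht
    rcases lt_or_eq_of_le ht.2 with h1 | h1
    · exact vW t ⟨ht.1, h1⟩
    · rw [h1, ← hw, ← vW 0 ⟨le_rfl, hT⟩, ← pW 0, zero_add]
  have din : ∀ t ∈ Ioo 0 T, HasDerivAt X (W t) t ∧ HasDerivAt W (Γ (X t)) t := by
    intro t ht
    have hev : ∀ᶠ s in 𝓝 t, s ∈ Ioo 0 T := Ioo_mem_nhds ht.1 ht.2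
    rw [vX t ⟨ht.1.le, ht.2⟩, vW t ⟨ht.1.le, ht.2⟩]
    refine ⟨(h.dx t ht).congr_of_eventuallyEq ?_, (h.dw t ht).congr_of_eventuallyEq ?_⟩
    · filter_upwards [hev] with s hs
      exact vX s ⟨hs.1.le, hs.2⟩
    · filter_upwards [hev] with s hs
      exact vW s ⟨hs.1.le, hs.2⟩
  have shift : ∀ t, (HasDerivAt X (W t) t ∧ HasDerivAt W (Γ (X t)) t) →
      (HasDerivAt X (W (t - T)) (t - T) ∧ HasDerivAt W (Γ (X (t - T))) (t - T)) := by
    intro t ht
    have e1 : X (t - T) = X t := by rw [← pX (t - T), sub_add_cancel]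
    have e2 : W (t - T) = W t := by rw [← pW (t - T), sub_add_cancel]
    rw [e1, e2]
    constructor
    · have h1 : HasDerivAt (fun s => X (s + T)) (W t) (t - T) := by
        refine HasDerivAt.comp_add_const (t - T) T ?_
        rw [sub_add_cancel]; exact ht.1
      exact h1.congr_of_eventuallyEq (Eventually.of_forall fun s => (pX s).symm)
    · have h1 : HasDerivAt (fun s => W (s + T)) (Γ (X t)) (t - T) := by
        refine HasDerivAt.comp_add_const (t - T) T ?_
        rw [sub_add_cancel]; exact ht.2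
      exact h1.congr_of_eventuallyEq (Eventually.of_forall fun s => (pW s).symm)
  have shift' : ∀ t, (HasDerivAt X (W t) t ∧ HasDerivAt W (Γ (X t)) t) →
      (HasDerivAt X (W (t + T)) (t + T) ∧ HasDerivAt W (Γ (X (t + T))) (t + T)) := by
    intro t ht
    rw [pX t, pW t]
    have pX2 : ∀ s, X (s - T) = X s := fun s => by rw [← pX (s - T), sub_add_cancel]
    have pW2 : ∀ s, W (s - T) = W s := fun s => by rw [← pW (s - T), sub_add_cancel]
    constructor
    · have h1 : HasDerivAt (fun s => X (s - T)) (W t) (t + T) := by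
        refine HasDerivAt.comp_sub_const (t + T) T ?_
        rw [add_sub_cancel_right]; exact ht.1
      exact h1.congr_of_eventuallyEq (Eventually.of_forall fun s => (pX2 s).symm)
    · have h1 : HasDerivAt (fun s => W (s - T)) (Γ (X t)) (t + T) := by
        refine HasDerivAt.comp_sub_const (t + T) T ?_
        rw [add_sub_cancel_right]; exact ht.2
      exact h1.congr_of_eventuallyEq (Eventually.of_forall fun s => (pW2 s).symm)
  have dzero : HasDerivAt X (W 0) 0 ∧ HasDerivAt W (Γ (X 0)) 0 := by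
    have near : ∀ y ∈ Ioo (0 - T) (0 + T), y ≠ 0 →
        HasDerivAt X (W y) y ∧ HasDerivAt W (Γ (X y)) y := by
      intro y hy hy0
      rcases lt_or_gt_of_ne hy0 with h1 | h1
      · have h2 := shift (y + T) (din (y + T) ⟨by linarith [hy.1], by linarith⟩)
        rwa [add_sub_cancel_right] at h2
      · exact din y ⟨h1, by linarith [hy.2]⟩
    have hx0 : X 0 = x 0 := vX 0 ⟨le_rfl, hT⟩
    have cg : ContinuousAt (fun t => Γ (X t)) 0 := by
      refine ContinuousAt.comp (f := X) ?_ cX.continuousAt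
      rw [hx0]; exact hΓ 0 ⟨le_rfl, hT.le⟩
    exact ⟨deriv_glue hT (fun y hy hy0 => (near y hy hy0).1) cX.continuousAt cW.continuousAt,
      deriv_glue (g := fun t => Γ (X t)) hT (fun y hy hy0 => (near y hy hy0).2) cW.continuousAt cg⟩
  have dIco : ∀ t ∈ Ico 0 T, HasDerivAt X (W t) t ∧ HasDerivAt W (Γ (X t)) t := by
    intro t ht
    rcases lt_or_eq_of_le ht.1 with h1 | h1
    · exact din t ⟨h1, ht.2⟩
    · rw [← h1]; exact dzero
  have dnat : ∀ (n : ℕ) (t : ℝ), (HasDerivAt X (W t) t ∧ HasDerivAt W (Γ (X t)) t) →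
      (HasDerivAt X (W (t + n * T)) (t + n * T) ∧ HasDerivAt W (Γ (X (t + n * T))) (t + n * T)) ∧
      (HasDerivAt X (W (t - n * T)) (t - n * T) ∧ HasDerivAt W (Γ (X (t - n * T))) (t - n * T)) := by
    intro n
    induction n with
    | zero => intro t ht; simpa using ht
    | succ n ih =>
      intro t ht
      obtain ⟨h1, h2⟩ := ih t ht
      have h3 := shift' _ h1
      have h4 := shift _ h2
      have e1 : t + (n : ℝ) * T + T = t + ((n + 1 : ℕ) : ℝ) * T := by push_cast; ring
      have e2 : t - (n : ℝ) * T - T = t - ((n + 1 : ℕ) : ℝ) * T := by push_cast; ring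
      rw [e1] at h3
      rw [e2] at h4
      exact ⟨h3, h4⟩
  have dall : ∀ t, HasDerivAt X (W t) t ∧ HasDerivAt W (Γ (X t)) t := by
    intro t
    set m : ℤ := ⌊t / T⌋ with hm
    have h1 : t - m * T ∈ Ico 0 T := by
      constructor
      · have := Int.floor_le (t / T)
        rw [le_div_iff₀ hT] at this
        linarith
      · have := Int.lt_floor_add_one (t / T)
        rw [div_lt_iff₀ hT] at this
        linarith
    have h2 := dIco _ h1
    rcases Int.eq_nat_or_neg m with ⟨n, hn | hn⟩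
    · have h3 := (dnat n _ h2).1
      have : t - (m : ℝ) * T + (n : ℝ) * T = t := by rw [hn]; push_cast; ring
      rwa [this] at h3
    · have h3 := (dnat n _ h2).2
      have : t - (m : ℝ) * T - (n : ℝ) * T = t := by rw [hn]; push_cast; ring
      rwa [this] at h3
  exact ⟨X, W, pX, pW, vX', vW', fun t => (dall t).1, fun t => (dall t).2⟩

end

end Pool.Agent.KS6_22.TBP.H
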