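import Mathlib

set_option autoImplicit false

open Polynomial

namespace Pool.Agent.KS6_22.TBP.H

/-! ### balanced digit norm -/

/-- sum of the absolute values of the `2^d` balanced base-`2^B` digits of `n` -/
def nrm (B : ℕ) : ℕ → ℤ → ℕ
  | 0, n => n.natAbs
  | d + 1, n =>
    nrm B d (Int.bmod n (2 ^ (B * 2 ^ d))) +
      nrm B d ((n - Int.bmod n (2 ^ (B * 2 ^ d))) / (2 ^ (B * 2 ^ d) : ℕ))

theorem S_bd (c : ℕ → ℤ) (x : ℤ) (hc : ∀ k, 2 * |c k| ≤ x - 1) (s K : ℕ) :
    2 * |∑ k ∈ Finset.range K, c (s + k) * x ^ k| ≤ x ^ K - 1 := by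
  have hx : 0 ≤ x := by
    have := hc 0
    have h2 := abs_nonneg (c 0)
    linarith
  induction K with
  | zero => simp
  | succ K ih =>
    rw [Finset.sum_range_succ]
    have h1 : |∑ k ∈ Finset.range K, c (s + k) * x ^ k + c (s + K) * x ^ K| ≤
        |∑ k ∈ Finset.range K, c (s + k) * x ^ k| + |c (s + K) * x ^ K| := abs_add_le _ _
    have h2 : |c (s + K) * x ^ K| = |c (s + K)| * x ^ K := by
      rw [abs_mul, abs_of_nonneg (pow_nonneg hx K)]
    have h3 : 2 * |c (s + K)| * x ^ K ≤ (x - 1) * x ^ K :=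
      mul_le_mul_of_nonneg_right (hc _) (pow_nonneg hx K)
    have h4 : x ^ (K + 1) = x * x ^ K := by ring
    rw [h4]
    rw [h2] at h1
    nlinarith

theorem bmod_split (m : ℕ) (lo hi : ℤ) (h : 2 * |lo| < m) :
    Int.bmod (lo + m * hi) m = lo := by
  obtain ⟨h1, h2⟩ := abs_lt.mp (show |2 * lo| < m by rw [abs_mul]; simpa using h)
  have hm : (0 : ℤ) < m := by
    have := abs_nonneg lo
    linarith
  rw [Int.add_mul_bmod_self_left]
  apply Int.bmod_eq_of_le
  · omega
  · omega

theorem nrm_eq (B : ℕ) (c : ℕ → ℤ) (hc : ∀ k, 2 * |c k| ≤ (2 : ℤ) ^ B - 1) (d : ℕ) :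
    ∀ s, nrm B d (∑ k ∈ Finset.range (2 ^ d), c (s + k) * ((2 : ℤ) ^ B) ^ k) =
      ∑ k ∈ Finset.range (2 ^ d), (c (s + k)).natAbs := by
  induction d with
  | zero => intro s; simp [nrm]
  | succ d ih =>
    intro s
    have hp : 2 ^ (d + 1) = 2 ^ d + 2 ^ d := by ring
    have e1 : ∑ k ∈ Finset.range (2 ^ (d + 1)), c (s + k) * ((2 : ℤ) ^ B) ^ k =
        (∑ k ∈ Finset.range (2 ^ d), c (s + k) * ((2 : ℤ) ^ B) ^ k) +
        ((2 ^ (B * 2 ^ d) : ℕ) : ℤ) *
          (∑ k ∈ Finset.range (2 ^ d), c (s + 2 ^ d + k) * ((2 : ℤ) ^ B) ^ k) := by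
      rw [hp, Finset.sum_range_add, Finset.mul_sum]
      congr 1
      apply Finset.sum_congr rfl
      intro k _
      rw [← add_assoc, pow_add]
      push_cast
      rw [pow_mul]
      ring
    have hlo : 2 * |∑ k ∈ Finset.range (2 ^ d), c (s + k) * ((2 : ℤ) ^ B) ^ k| <
        ((2 ^ (B * 2 ^ d) : ℕ) : ℤ) := by
      have := S_bd c ((2 : ℤ) ^ B) hc s (2 ^ d)
      push_cast
      rw [pow_mul]
      linarith
    have hb := bmod_split (2 ^ (B * 2 ^ d)) _
      (∑ k ∈ Finset.range (2 ^ d), c (s + 2 ^ d + k) * ((2 : ℤ) ^ B) ^ k) hlo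
    rw [e1, nrm, hb]
    have hm : ((2 ^ (B * 2 ^ d) : ℕ) : ℤ) ≠ 0 := by positivity
    rw [add_sub_cancel_left, Int.mul_ediv_cancel_left _ hm, ih s, ih (s + 2 ^ d), hp,
      Finset.sum_range_add]
    congr 1
    apply Finset.sum_congr rfl
    intro k _
    rw [add_assoc]

/-! ### the `ℓ¹` norm of an integer polynomial -/

/-- sum of absolute values of the coefficients -/
noncomputable def N1 (P : ℤ[X]) : ℕ := ∑ k ∈ P.support, (P.coeff k).natAbs

theorem N1_eq_range (P : ℤ[X]) (n : ℕ) (h : P.natDegree < n) :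
    N1 P = ∑ k ∈ Finset.range n, (P.coeff k).natAbs := by
  unfold N1
  apply Finset.sum_subset
  · intro k hk
    rw [Finset.mem_range]
    exact lt_of_le_of_lt (Polynomial.le_natDegree_of_mem_supp k hk) h
  · intro k _ hk
    rw [Polynomial.notMem_support_iff] at hk
    simp [hk]

theorem coeff_le_N1 (P : ℤ[X]) (k : ℕ) : (P.coeff k).natAbs ≤ N1 P := by
  by_cases h : k ∈ P.support
  · exact Finset.single_le_sum (f := fun k => (P.coeff k).natAbs) (fun _ _ => Nat.zero_le _) h
  · rw [Polynomial.notMem_support_iff] at h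
    simp [h]

theorem N1_add (P Q : ℤ[X]) : N1 (P + Q) ≤ N1 P + N1 Q := by
  set n := max (max P.natDegree Q.natDegree) (P + Q).natDegree + 1 with hn
  rw [N1_eq_range P n (by omega), N1_eq_range Q n (by omega), N1_eq_range (P + Q) n (by omega),
    ← Finset.sum_add_distrib]
  apply Finset.sum_le_sum
  intro k _
  rw [Polynomial.coeff_add]
  exact Int.natAbs_add_le _ _

theorem N1_sum {ι : Type*} (s : Finset ι) (f : ι → ℤ[X]) :
    N1 (∑ i ∈ s, f i) ≤ ∑ i ∈ s, N1 (f i) := by
  classical
  induction s using Finset.induction_on with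
  | empty => simp [N1]
  | insert a s ha ih =>
    rw [Finset.sum_insert ha, Finset.sum_insert ha]
    exact (N1_add _ _).trans (Nat.add_le_add le_rfl ih)

theorem N1_monomial_mul (k : ℕ) (a : ℤ) (Q : ℤ[X]) :
    N1 (monomial k a * Q) ≤ a.natAbs * N1 Q := by
  have h1 : monomial k a * Q = ∑ j ∈ Q.support, monomial (k + j) (a * Q.coeff j) := by
    conv_lhs => rw [Q.as_sum_support]
    rw [Finset.mul_sum]
    apply Finset.sum_congr rfl
    intro j _
    rw [monomial_mul_monomial]
  rw [h1]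
  refine (N1_sum _ _).trans ?_
  have h2 : ∀ (n : ℕ) (b : ℤ), N1 (monomial n b) ≤ b.natAbs := by
    intro n b
    rw [N1_eq_range (monomial n b) (n + 1) (Nat.lt_succ_of_le (natDegree_monomial_le b))]
    rw [Finset.sum_eq_single n]
    · simp
    · intro k _ hk
      rw [Polynomial.coeff_monomial_of_ne _ hk]
      rfl
    · intro h; simp at h
  calc ∑ j ∈ Q.support, N1 (monomial (k + j) (a * Q.coeff j))
      ≤ ∑ j ∈ Q.support, a.natAbs * (Q.coeff j).natAbs := by
        apply Finset.sum_le_sum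
        intro j _
        refine (h2 _ _).trans ?_
        rw [Int.natAbs_mul]
    _ = a.natAbs * N1 Q := by rw [N1, Finset.mul_sum]

theorem N1_mul (P Q : ℤ[X]) : N1 (P * Q) ≤ N1 P * N1 Q := by
  conv_lhs => rw [P.as_sum_support, Finset.sum_mul]
  refine (N1_sum _ _).trans ?_
  calc ∑ k ∈ P.support, N1 (monomial k (P.coeff k) * Q)
      ≤ ∑ k ∈ P.support, (P.coeff k).natAbs * N1 Q :=
        Finset.sum_le_sum fun k _ => N1_monomial_mul _ _ _
    _ = N1 P * N1 Q := by rw [← Finset.sum_mul]; rfl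

theorem N1_C (a : ℤ) : N1 (C a) ≤ a.natAbs := by
  have := N1_monomial_mul 0 a 1
  rw [mul_one, monomial_zero_left] at this
  refine this.trans ?_
  have h1 : N1 (1 : ℤ[X]) = 1 := by
    rw [N1_eq_range 1 1 (by simp)]
    simp
  rw [h1, mul_one]

theorem N1_X_pow (k : ℕ) : N1 (X ^ k : ℤ[X]) ≤ 1 := by
  have := N1_monomial_mul k 1 1
  rw [mul_one, monomial_one_right_eq_X_pow] at this
  refine this.trans ?_
  have h1 : N1 (1 : ℤ[X]) = 1 := by
    rw [N1_eq_range 1 1 (by simp)]
    simp
  rw [h1]; rfl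

theorem eval_le_N1 (P : ℤ[X]) (z : ℂ) (hz : ‖z‖ = 1) :
    ‖Polynomial.eval₂ (Int.castRingHom ℂ) z P‖ ≤ N1 P := by
  rw [Polynomial.eval₂_eq_sum]
  unfold Polynomial.sum
  refine (norm_sum_le _ _).trans ?_
  unfold N1
  push_cast
  apply Finset.sum_le_sum
  intro k _
  rw [norm_mul, norm_pow, hz, one_pow, mul_one]
  simp

theorem N1_eq_nrm (B d : ℕ) (P : ℤ[X]) (hd : P.natDegree < 2 ^ d)
    (hB : 2 * N1 P < 2 ^ B) : N1 P = nrm B d (P.eval ((2 : ℤ) ^ B)) := by
  have h1 := nrm_eq B P.coeff (fun k => by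
    have h2 := coeff_le_N1 P k
    have h3 : 2 * (P.coeff k).natAbs < 2 ^ B := by omega
    have h4 : 2 * |P.coeff k| < (2:ℤ) ^ B := by
      have : ((2 * (P.coeff k).natAbs : ℕ) : ℤ) < ((2 ^ B : ℕ) : ℤ) := by exact_mod_cast h3
      push_cast at this
      simpa using this
    omega) d 0
  rw [Polynomial.eval_eq_sum_range' hd]
  simp only [zero_add] at h1
  rw [h1, N1_eq_range P _ hd]

/-! ### Horner evaluation -/

/-- Horner evaluation -/
def hn {R : Type*} [CommRing R] (x : R) : List ℤ → R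
  | [] => 0
  | a :: l => (a : R) + x * hn x l

/-- multiply the `j`-th coefficient by `k + j` -/
def dl (k : ℤ) : List ℤ → List ℤ
  | [] => []
  | a :: l => (k * a) :: dl (k + 1) l

/-- Horner evaluation in `ℤ` (for computation) -/
def hnI (x : ℤ) : List ℤ → ℤ
  | [] => 0
  | a :: l => a + x * hnI x l

theorem hnI_eq (x : ℤ) (l : List ℤ) : hnI x l = hn x l := by
  induction l with
  | nil => rfl
  | cons a l ih => simp [hnI, hn, ih]

theorem hn_map {R S : Type*} [CommRing R] [CommRing S] (φ : R →+* S) (x : R) (l : List ℤ) :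
    φ (hn x l) = hn (φ x) l := by
  induction l with
  | nil => simp [hn]
  | cons a l ih => simp [hn, ih]

theorem hn_append {R : Type*} [CommRing R] (x : R) (l : List ℤ) (a : ℤ) :
    hn x (l ++ [a]) = hn x l + x ^ l.length * a := by
  induction l with
  | nil => simp [hn]
  | cons b l ih =>
    simp only [List.cons_append, hn, ih, List.length_cons]
    ring

theorem hn_reverse (z : ℂ) (hz : z ≠ 0) (l : List ℤ) :
    z * hn z l.reverse = z ^ l.length * hn z⁻¹ l := by
  induction l with
  | nil => simp [hn]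
  | cons a l ih =>
    rw [List.reverse_cons, hn_append, List.length_reverse, List.length_cons]
    simp only [hn]
    rw [mul_add, ih]
    have h1 : z ^ (l.length + 1) * ((a : ℂ) + z⁻¹ * hn z⁻¹ l) =
        z * (z ^ l.length * a) + (z * z⁻¹) * (z ^ l.length * hn z⁻¹ l) := by ring
    rw [h1, mul_inv_cancel₀ hz]
    ring

theorem hn_dl_succ {R : Type*} [CommRing R] (x : R) (l : List ℤ) (k : ℤ) :
    hn x (dl (k + 1) l) = hn x l + hn x (dl k l) := by
  induction l generalizing k with
  | nil => simp [hn, dl]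
  | cons a l ih =>
    simp only [hn, dl, ih (k + 1)]
    push_cast
    ring

theorem dl_length (k : ℤ) (l : List ℤ) : (dl k l).length = l.length := by
  induction l generalizing k with
  | nil => rfl
  | cons a l ih => simp [dl, ih]

/-- sum of absolute values of the entries -/
def la : List ℤ → ℕ
  | [] => 0
  | a :: l => a.natAbs + la l

theorem la_append (l : List ℤ) (a : ℤ) : la (l ++ [a]) = la l + a.natAbs := by
  induction l with
  | nil => simp [la]
  | cons b l ih => simp [la, ih]; ring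

theorem la_reverse (l : List ℤ) : la l.reverse = la l := by
  induction l with
  | nil => rfl
  | cons a l ih => rw [List.reverse_cons, la_append, ih, la]; ring

theorem N1_hn (l : List ℤ) : N1 (hn (X : ℤ[X]) l) ≤ la l := by
  induction l with
  | nil => simp [hn, N1, la]
  | cons a l ih =>
    simp only [hn, la]
    refine (N1_add _ _).trans (Nat.add_le_add ?_ ?_)
    · have := N1_C a
      simpa using this
    · have h1 := N1_mul X (hn (X : ℤ[X]) l)
      have h2 := N1_X_pow 1
      rw [pow_one] at h2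
      calc _ ≤ _ := h1
        _ ≤ 1 * la l := Nat.mul_le_mul h2 ih
        _ = la l := one_mul _

theorem natDegree_hn (l : List ℤ) (D : ℕ) (h : l.length ≤ D + 1) :
    (hn (X : ℤ[X]) l).natDegree ≤ D := by
  induction l generalizing D with
  | nil => simp [hn]
  | cons a l ih =>
    simp only [hn]
    refine (natDegree_add_le _ _).trans (max_le ?_ ?_)
    · simp
    · rcases l with _ | ⟨b, l⟩
      · simp [hn]
      · cases D with
        | zero => simp at h
        | succ D =>
          refine natDegree_mul_le.trans ?_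
          have := ih D (by simp at h ⊢; omega)
          rw [natDegree_X]
          omega

/-! ### expressions -/

/-- expressions in Laurent-cosine polynomials -/
inductive Ex
  | c (n : ℤ)
  | X (k : ℕ)
  | s (i : ℕ)
  | d (i : ℕ)
  | add (a b : Ex)
  | mul (a b : Ex)

section
variable (D : ℕ) (dat : ℕ → List ℤ)

/-- symmetric polynomial attached to the half-list `l` -/
def SPe {R : Type*} [CommRing R] (x : R) (l : List ℤ) : R :=
  x ^ D * (hn x l - (l.headD 0 : ℤ)) + hn x l.reverse

/-- antisymmetric polynomial attached to the half-list `l` -/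
def DPe {R : Type*} [CommRing R] (x : R) (l : List ℤ) : R :=
  x ^ D * hn x (dl 0 l) - hn x (dl 0 l).reverse

/-- evaluation of an expression in a ring -/
def evR {R : Type*} [CommRing R] (x : R) : Ex → R
  | .c n => (n : R)
  | .X k => x ^ k
  | .s i => SPe D x (dat i)
  | .d i => DPe D x (dat i)
  | .add a b => evR x a + evR x b
  | .mul a b => evR x a * evR x b

theorem evR_map {R S : Type*} [CommRing R] [CommRing S] (φ : R →+* S) (x : R) (e : Ex) :
    φ (evR D dat x e) = evR D dat (φ x) e := by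
  induction e with
  | c n => simp [evR]
  | X k => simp [evR]
  | s i => simp [evR, SPe, hn_map]
  | d i => simp [evR, DPe, hn_map]
  | add a b iha ihb => simp [evR, iha, ihb]
  | mul a b iha ihb => simp [evR, iha, ihb]

/-- computation in `ℤ` with `x = 2^B` -/
def evI (B : ℕ) : Ex → ℤ
  | .c n => n
  | .X k => ((2 ^ (B * k) : ℕ) : ℤ)
  | .s i => ((2 ^ (B * D) : ℕ) : ℤ) * (hnI ((2 ^ B : ℕ) : ℤ) (dat i) - (dat i).headD 0)
      + hnI ((2 ^ B : ℕ) : ℤ) (dat i).reverse
  | .d i => ((2 ^ (B * D) : ℕ) : ℤ) * hnI ((2 ^ B : ℕ) : ℤ) (dl 0 (dat i))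
      - hnI ((2 ^ B : ℕ) : ℤ) (dl 0 (dat i)).reverse
  | .add a b => evI B a + evI B b
  | .mul a b => evI B a * evI B b

theorem evI_eq (B : ℕ) (e : Ex) : evI D dat B e = evR D dat ((2 : ℤ) ^ B) e := by
  induction e with
  | c n => simp [evI, evR]
  | X k => simp [evI, evR, pow_mul]
  | s i => simp [evI, evR, SPe, hnI_eq, pow_mul]
  | d i => simp [evI, evR, DPe, hnI_eq, pow_mul]
  | add a b iha ihb => simp [evI, evR, iha, ihb]
  | mul a b iha ihb => simp [evI, evR, iha, ihb]

/-- a priori bound for the `ℓ¹` norm -/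
def bnd : Ex → ℕ
  | .c n => n.natAbs
  | .X _ => 1
  | .s i => 3 * la (dat i)
  | .d i => 2 * la (dl 0 (dat i))
  | .add a b => bnd a + bnd b
  | .mul a b => bnd a * bnd b

/-- a priori bound for the degree -/
def dg : Ex → ℕ
  | .c _ => 0
  | .X k => k
  | .s _ => 2 * D
  | .d _ => 2 * D
  | .add a b => max (dg a) (dg b)
  | .mul a b => dg a + dg b

theorem headD_le (l : List ℤ) : (l.headD 0).natAbs ≤ la l := by
  cases l with
  | nil => simp [la]
  | cons a l => simp [la]

theorem N1_neg (P : ℤ[X]) : N1 (-P) ≤ N1 P := by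
  unfold N1
  rw [Polynomial.support_neg]
  apply Finset.sum_le_sum
  intro k _
  rw [Polynomial.coeff_neg, Int.natAbs_neg]

theorem N1_evR (e : Ex) : N1 (evR D dat (Polynomial.X : ℤ[X]) e) ≤ bnd dat e := by
  induction e with
  | c n => simpa [evR, bnd] using N1_C n
  | X k => exact N1_X_pow k
  | s i =>
    simp only [evR, SPe, bnd]
    have h1 := N1_hn (dat i)
    have h2 := N1_hn (dat i).reverse
    rw [la_reverse] at h2
    have h3 := N1_mul (Polynomial.X ^ D) (hn (Polynomial.X : ℤ[X]) (dat i) - (((dat i).headD 0 : ℤ) : ℤ[X]))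
    have h4 := N1_X_pow D
    have h5 : N1 (hn (Polynomial.X : ℤ[X]) (dat i) - (((dat i).headD 0 : ℤ) : ℤ[X])) ≤
        la (dat i) + la (dat i) := by
      rw [sub_eq_add_neg]
      refine (N1_add _ _).trans (Nat.add_le_add h1 ((N1_neg _).trans ?_))
      have := N1_C ((dat i).headD 0)
      refine le_trans ?_ (headD_le (dat i))
      simpa using this
    have h6 : N1 (Polynomial.X ^ D : ℤ[X]) *
        N1 (hn (Polynomial.X : ℤ[X]) (dat i) - (((dat i).headD 0 : ℤ) : ℤ[X])) ≤
        1 * (la (dat i) + la (dat i)) := Nat.mul_le_mul h4 h5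
    have h7 := N1_add (Polynomial.X ^ D * (hn (Polynomial.X : ℤ[X]) (dat i)
      - (((dat i).headD 0 : ℤ) : ℤ[X]))) (hn (Polynomial.X : ℤ[X]) (dat i).reverse)
    omega
  | d i =>
    simp only [evR, DPe, bnd]
    have h1 := N1_hn (dl 0 (dat i))
    have h2 := N1_hn (dl 0 (dat i)).reverse
    rw [la_reverse] at h2
    have h3 := N1_mul (Polynomial.X ^ D) (hn (Polynomial.X : ℤ[X]) (dl 0 (dat i)))
    have h4 := N1_X_pow D
    have h6 : N1 (Polynomial.X ^ D : ℤ[X]) * N1 (hn (Polynomial.X : ℤ[X]) (dl 0 (dat i))) ≤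
        1 * la (dl 0 (dat i)) := Nat.mul_le_mul h4 h1
    have h7 := N1_add (Polynomial.X ^ D * hn (Polynomial.X : ℤ[X]) (dl 0 (dat i)))
      (-hn (Polynomial.X : ℤ[X]) (dl 0 (dat i)).reverse)
    have h8 := N1_neg (hn (Polynomial.X : ℤ[X]) (dl 0 (dat i)).reverse)
    rw [sub_eq_add_neg]
    omega
  | add a b iha ihb => exact (N1_add _ _).trans (Nat.add_le_add iha ihb)
  | mul a b iha ihb => exact (N1_mul _ _).trans (Nat.mul_le_mul iha ihb)

theorem dg_evR (hdat : ∀ i, (dat i).length ≤ D + 1) (e : Ex) :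
    (evR D dat (Polynomial.X : ℤ[X]) e).natDegree ≤ dg D e := by
  induction e with
  | c n => simp [evR, dg]
  | X k => simp [evR, dg]
  | s i =>
    simp only [evR, SPe, dg]
    refine (natDegree_add_le _ _).trans (max_le ?_ ?_)
    · refine natDegree_mul_le.trans ?_
      rw [natDegree_X_pow]
      have h1 := natDegree_hn (dat i) D (hdat i)
      have h2 : (hn (Polynomial.X : ℤ[X]) (dat i) - (((dat i).headD 0 : ℤ) : ℤ[X])).natDegree ≤ D := by
        refine (natDegree_sub_le _ _).trans (max_le h1 ?_)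
        simp
      omega
    · have := natDegree_hn (dat i).reverse D (by rw [List.length_reverse]; exact hdat i)
      omega
  | d i =>
    simp only [evR, DPe, dg]
    refine (natDegree_sub_le _ _).trans (max_le ?_ ?_)
    · refine natDegree_mul_le.trans ?_
      rw [natDegree_X_pow]
      have h1 := natDegree_hn (dl 0 (dat i)) D (by rw [dl_length]; exact hdat i)
      omega
    · have := natDegree_hn (dl 0 (dat i)).reverse D
        (by rw [List.length_reverse, dl_length]; exact hdat i)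
      omega
  | add a b iha ihb =>
    exact (natDegree_add_le _ _).trans (max_le (iha.trans (le_max_left _ _))
      (ihb.trans (le_max_right _ _)))
  | mul a b iha ihb =>
    exact natDegree_mul_le.trans (Nat.add_le_add iha ihb)

/-- the kernel-checkable test -/
def chk (B dd : ℕ) (bd : ℕ) (e : Ex) : Bool :=
  decide (2 * bnd dat e < 2 ^ B) && decide (dg D e < 2 ^ dd) && decide (nrm B dd (evI D dat B e) ≤ bd)

theorem chk_sound (hdat : ∀ i, (dat i).length ≤ D + 1) (B dd bd : ℕ) (e : Ex)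
    (h : chk D dat B dd bd e = true) (z : ℂ) (hz : ‖z‖ = 1) :
    ‖evR D dat z e‖ ≤ bd := by
  unfold chk at h
  rw [Bool.and_eq_true, Bool.and_eq_true, decide_eq_true_iff, decide_eq_true_iff,
    decide_eq_true_iff] at h
  obtain ⟨⟨h1, h2⟩, h3⟩ := h
  set P := evR D dat (Polynomial.X : ℤ[X]) e with hP
  have e1 : Polynomial.eval₂ (Int.castRingHom ℂ) z P = evR D dat z e := by
    have := evR_map D dat (Polynomial.eval₂RingHom (Int.castRingHom ℂ) z) Polynomial.X e
    rw [Polynomial.coe_eval₂RingHom, Polynomial.eval₂_X] at this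
    exact this
  have e2 : P.eval ((2 : ℤ) ^ B) = evI D dat B e := by
    have := evR_map D dat (Polynomial.evalRingHom ((2 : ℤ) ^ B)) Polynomial.X e
    rw [Polynomial.coe_evalRingHom, Polynomial.eval_X] at this
    rw [evI_eq]
    exact this
  have hN : N1 P ≤ bnd dat e := N1_evR D dat e
  have hN2 := N1_eq_nrm B dd P (lt_of_le_of_lt (dg_evR D dat hdat e) h2) (by omega)
  rw [e2] at hN2
  rw [← e1]
  refine (eval_le_N1 P z hz).trans ?_
  rw [hN2]
  exact_mod_cast h3

end

end Pool.Agent.KS6_22.TBP.H
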