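import Pool.Agent.KS6_22.TBP.H.Trig

set_option autoImplicit false

open Complex

namespace Pool.Agent.KS6_22.TBP.H

/-- the scaled functions -/
noncomputable def v (i : ℕ) (θ : ℝ) : ℝ := cosL (dat i) θ / 2 ^ 80
noncomputable def v' (i : ℕ) (θ : ℝ) : ℝ := sinL (dat i) θ / 2 ^ 80

theorem v_deriv (i : ℕ) (θ : ℝ) : HasDerivAt (v i) (v' i θ) θ :=
  (cosL_deriv (dat i) θ).div_const _

theorem v_cont (i : ℕ) : Continuous (v i) := (cosL_cont _).div_const _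
theorem v'_cont (i : ℕ) : Continuous (v' i) := (sinL_cont _).div_const _

/-- the scale -/
noncomputable def KC : ℂ := 2 ^ 80

theorem KC_norm : ‖KC‖ = 2 ^ 80 := by simp [KC]

/-- evaluation of an expression at `e^{iθ}` -/
noncomputable abbrev ev (θ : ℝ) (e : Ex) : ℂ := evR 124 dat (zz θ) e

theorem ev_s (θ : ℝ) (i : ℕ) : ev θ (.s i) = zz θ ^ 124 * KC * (v i θ : ℂ) := by
  simp only [ev, evR, KC]
  rw [SPe_eq 124 (dat i) (dat_length i) θ, v]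
  push_cast
  field_simp

theorem ev_d (θ : ℝ) (i : ℕ) :
    ev θ (.d i) = -Complex.I * zz θ ^ 124 * KC * (v' i θ : ℂ) := by
  simp only [ev, evR, KC]
  rw [DPe_eq 124 (dat i) (dat_length i) θ, v']
  push_cast
  field_simp

theorem ev_add (θ : ℝ) (a b : Ex) : ev θ (.add a b) = ev θ a + ev θ b := rfl
theorem ev_mul (θ : ℝ) (a b : Ex) : ev θ (.mul a b) = ev θ a * ev θ b := rfl
theorem ev_c (θ : ℝ) (n : ℤ) : ev θ (.c n) = (n : ℂ) := rfl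
theorem ev_X (θ : ℝ) (n : ℕ) : ev θ (.X n) = zz θ ^ n := rfl
theorem ev_sc (θ : ℝ) (n : ℕ) : ev θ (sc n) = KC ^ n := by
  rw [sc, ev_c, KC]; push_cast; rw [pow_mul]
theorem ev_neg (θ : ℝ) (a : Ex) : ev θ (eneg a) = - ev θ a := by
  rw [eneg, ev_mul, ev_c]; push_cast; ring
theorem ev_sub (θ : ℝ) (a b : Ex) : ev θ (esub a b) = ev θ a - ev θ b := by
  rw [esub, ev_add, ev_neg]; ring
theorem ev_tX (θ : ℝ) : ev θ tX = 2 * zz θ := by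
  rw [tX, ev_mul, ev_c, ev_X]; push_cast; ring
theorem ev_zs (θ : ℝ) : ev θ zs = 2 * Complex.I * Real.sin θ * zz θ := by
  rw [zs, ev_add, ev_c, ev_X, ← zz_sq_sub]; push_cast; ring

/-- pair vectors -/
noncomputable def pv (p c o : ℕ) (θ : ℝ) : ℝ :=
  match p with
  | 0 => v (o + c) θ + v (o + 2 + c) θ
  | 1 => v (o + c) θ - v (o + 2 + c) θ
  | _ => v (o + 2 + c) θ

noncomputable def rv (p : ℕ) (θ : ℝ) : ℝ := v (8 + p) θ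

theorem ev_pr (θ : ℝ) (p c o : ℕ) :
    ev θ (prE p c o) = zz θ ^ 124 * KC * (pv p c o θ : ℂ) := by
  match p with
  | 0 => simp only [prE, pv, ev_add, ev_s]; push_cast; ring
  | 1 => simp only [prE, pv, ev_sub, ev_s]; push_cast; ring
  | n + 2 => simp only [prE, pv, ev_s]

theorem ev_R (θ : ℝ) (p : ℕ) : ev θ (RE p) = zz θ ^ 124 * KC * (rv p θ : ℂ) := by
  rw [RE, ev_s]; rfl

theorem ev_R3 (θ : ℝ) (p : ℕ) : ev θ (R3E p) = zz θ ^ 372 * KC ^ 3 * ((rv p θ : ℂ)) ^ 3 := by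
  rw [R3E, ev_mul, ev_mul, ev_R]; ring

/-- force at the approximate orbit -/
noncomputable def Fh (w c : ℕ) (θ : ℝ) : ℝ :=
  match w with
  | 0 => -5 * (rv 0 θ ^ 3 * pv 0 c 0 θ + rv 1 θ ^ 3 * pv 1 c 0 θ)
  | _ => -(rv 0 θ ^ 3 * pv 0 c 0 θ - rv 1 θ ^ 3 * pv 1 c 0 θ) - rv 2 θ ^ 3 * pv 2 c 0 θ

theorem ev_F (θ : ℝ) (w c : ℕ) :
    ev θ (FE w c) = zz θ ^ 496 * KC ^ 4 * (Fh w c θ : ℂ) := by
  match w with
  | 0 =>
    simp only [FE, Fh, ev_mul, ev_add, ev_c, ev_R3, ev_pr]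
    push_cast; ring
  | n + 1 =>
    simp only [FE, Fh, ev_mul, ev_add, ev_sub, ev_neg, ev_R3, ev_pr]
    push_cast; ring

/-- linearised pair force -/
noncomputable def gh (p c o : ℕ) (θ : ℝ) : ℝ :=
  rv p θ ^ 3 * pv p c o θ - 3 * rv p θ ^ 5 *
    (pv p 0 0 θ * pv p 0 o θ + pv p 1 0 θ * pv p 1 o θ) * pv p c 0 θ

theorem ev_g (θ : ℝ) (p c o : ℕ) :
    ev θ (gE p c o) = zz θ ^ 992 * KC ^ 8 * (gh p c o θ : ℂ) := by
  simp only [gE, gh, ev_mul, ev_add, ev_c, ev_X, ev_sc, ev_R3, ev_R, ev_pr]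
  push_cast; ring

noncomputable def Lh (w c o : ℕ) (θ : ℝ) : ℝ :=
  match w with
  | 0 => -5 * (gh 0 c o θ + gh 1 c o θ)
  | _ => -(gh 0 c o θ - gh 1 c o θ) - gh 2 c o θ

theorem ev_L (θ : ℝ) (w c o : ℕ) :
    ev θ (LE w c o) = zz θ ^ 992 * KC ^ 8 * (Lh w c o θ : ℂ) := by
  match w with
  | 0 =>
    simp only [LE, Lh, ev_mul, ev_add, ev_c, ev_g]
    push_cast; ring
  | n + 1 =>
    simp only [LE, Lh, ev_add, ev_sub, ev_neg, ev_g]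
    push_cast; ring

theorem ev_E1 (θ : ℝ) (o i : ℕ) : ev θ (E1 o i) =
    (-2 * Complex.I * zz θ ^ 125 * KC ^ 1) * ((v' (o + i) θ - Real.sin θ * v (o + i + 4) θ : ℝ) : ℂ) := by
  simp only [E1, ev_mul, ev_add, ev_tX, ev_zs, ev_s, ev_d]
  push_cast; ring

theorem ev_E2 (θ : ℝ) (w c : ℕ) : ev θ (E2 w c) =
    (-2 * Complex.I * zz θ ^ 497 * KC ^ 4) *
      ((v' (4 + 2 * w + c) θ - Real.sin θ * Fh w c θ : ℝ) : ℂ) := by
  simp only [E2, ev_mul, ev_add, ev_tX, ev_zs, ev_d, ev_X, ev_sc, ev_F]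
  push_cast; ring

theorem ev_E3 (θ : ℝ) (p : ℕ) : ev θ (E3 p) =
    (zz θ ^ 496 * KC ^ 4) *
      ((rv p θ ^ 2 * (pv p 0 0 θ ^ 2 + pv p 1 0 θ ^ 2) - 1 : ℝ) : ℂ) := by
  simp only [E3, ev_mul, ev_add, ev_neg, ev_X, ev_sc, ev_R, ev_pr]
  push_cast; ring

theorem ev_E5 (θ : ℝ) (w c o : ℕ) : ev θ (E5 w c o) =
    (-2 * Complex.I * zz θ ^ 993 * KC ^ 8) *
      ((v' (o + 4 + 2 * w + c) θ - Real.sin θ * Lh w c o θ : ℝ) : ℂ) := by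
  simp only [E5, ev_mul, ev_add, ev_tX, ev_zs, ev_d, ev_X, ev_sc, ev_L]
  push_cast; ring

/-- extraction of a real bound -/
theorem extract (θ : ℝ) (e : Ex) (B dd bd : ℕ) (h : chk 124 dat B dd bd e = true)
    (u : ℂ) (x C b : ℝ) (hu : ‖u‖ = C) (hC : 0 < C) (he : ev θ e = u * (x : ℂ))
    (hb : (bd : ℝ) ≤ b * C) : |x| ≤ b := by
  have h1 := chk_sound 124 dat (fun i => (dat_length i).le) B dd bd e h (zz θ) (zz_norm θ)
  have h2 : ‖evR 124 dat (zz θ) e‖ = C * |x| := by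
    have : evR 124 dat (zz θ) e = u * (x : ℂ) := he
    rw [this, norm_mul, hu, Complex.norm_real, Real.norm_eq_abs]
  rw [h2] at h1
  have h3 : C * |x| ≤ C * b := by linarith
  exact le_of_mul_le_mul_left h3 hC

theorem norm_u1 (θ : ℝ) (n k : ℕ) : ‖(-2 * Complex.I * zz θ ^ n * KC ^ k : ℂ)‖ = 2 ^ (80 * k + 1) := by
  rw [norm_mul, norm_mul, norm_pow, norm_pow, zz_norm, KC_norm, ← pow_mul]
  simp [pow_succ, mul_comm]

theorem norm_u2 (θ : ℝ) (n k : ℕ) : ‖(zz θ ^ n * KC ^ k : ℂ)‖ = 2 ^ (80 * k) := by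
  rw [norm_mul, norm_pow, norm_pow, zz_norm, KC_norm, ← pow_mul]
  simp

theorem bd_aux (k m N : ℕ) (h : k + m = N) : (((2 ^ k : ℕ) : ℝ)) ≤ 1 / 2 ^ m * 2 ^ N := by
  rw [← h, pow_add]
  push_cast
  field_simp
  exact le_rfl

theorem bound_E1 (B dd o i k m : ℕ) (hk : k + m = 81) (h : chk 124 dat B dd (2 ^ k) (E1 o i) = true)
    (θ : ℝ) : |v' (o + i) θ - Real.sin θ * v (o + i + 4) θ| ≤ 1 / 2 ^ m :=
  extract θ _ _ _ _ h _ _ _ _ (norm_u1 θ 125 1) (by positivity) (ev_E1 θ o i) (bd_aux k m 81 hk)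

theorem bound_E2 (B dd w c k m : ℕ) (hk : k + m = 321) (h : chk 124 dat B dd (2 ^ k) (E2 w c) = true)
    (θ : ℝ) : |v' (4 + 2 * w + c) θ - Real.sin θ * Fh w c θ| ≤ 1 / 2 ^ m :=
  extract θ _ _ _ _ h _ _ _ _ (norm_u1 θ 497 4) (by positivity) (ev_E2 θ w c) (bd_aux k m 321 hk)

theorem bound_E3 (B dd p k m : ℕ) (hk : k + m = 320) (h : chk 124 dat B dd (2 ^ k) (E3 p) = true)
    (θ : ℝ) : |rv p θ ^ 2 * (pv p 0 0 θ ^ 2 + pv p 1 0 θ ^ 2) - 1| ≤ 1 / 2 ^ m :=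
  extract θ _ _ _ _ h _ _ _ _ (norm_u2 θ 496 4) (by positivity) (ev_E3 θ p) (bd_aux k m 320 hk)

theorem bound_E5 (B dd w c o k m : ℕ) (hk : k + m = 641)
    (h : chk 124 dat B dd (2 ^ k) (E5 w c o) = true)
    (θ : ℝ) : |v' (o + 4 + 2 * w + c) θ - Real.sin θ * Lh w c o θ| ≤ 1 / 2 ^ m :=
  extract θ _ _ _ _ h _ _ _ _ (norm_u1 θ 993 8) (by positivity) (ev_E5 θ w c o)
    (bd_aux k m 641 hk)

/-- the real term in `E6` -/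
noncomputable def t6 (j k i : ℕ) (θ : ℝ) : ℝ :=
  ((sgz j : ℝ) * (sgz i : ℝ) * (wz i : ℝ)) *
    (v (16 + 8 * ((j + 4) % 8) + (i + 4) % 8) θ * v (16 + 8 * k + i) θ)

theorem ev_t6 (θ : ℝ) (j k i : ℕ) :
    ev θ (tE6 j k i) = -(zz θ ^ 248 * KC ^ 2 * (t6 j k i θ : ℂ)) := by
  simp only [tE6, t6, ev_mul, ev_c, ev_s]
  push_cast; ring

theorem ev_E6 (θ : ℝ) (j k : ℕ) : ev θ (E6 j k) = (zz θ ^ 248 * KC ^ 2) *
    (((if j = k then 1 else 0 : ℝ) - (t6 j k 0 θ + t6 j k 1 θ + t6 j k 2 θ + t6 j k 3 θ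
      + t6 j k 4 θ + t6 j k 5 θ + t6 j k 6 θ + t6 j k 7 θ) : ℝ) : ℂ) := by
  have h : (((if j = k then 1 else 0 : ℤ) : ℤ) : ℂ) = (((if j = k then 1 else 0 : ℝ) : ℝ) : ℂ) := by
    split_ifs <;> simp
  simp only [E6, ev_mul, ev_add, ev_c, ev_X, ev_sc, ev_t6, h]
  push_cast; ring

theorem bound_E6 (B dd j k n m : ℕ) (hk : n + m = 160)
    (h : chk 124 dat B dd (2 ^ n) (E6 j k) = true) (θ : ℝ) :
    |(if j = k then 1 else 0 : ℝ) - (t6 j k 0 θ + t6 j k 1 θ + t6 j k 2 θ + t6 j k 3 θ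
      + t6 j k 4 θ + t6 j k 5 θ + t6 j k 6 θ + t6 j k 7 θ)| ≤ 1 / 2 ^ m :=
  extract θ _ _ _ _ h _ _ _ _ (norm_u2 θ 248 2) (by positivity) (ev_E6 θ j k)
    (bd_aux n m 160 hk)

theorem ev_E7 (θ : ℝ) : ev θ E7 = (zz θ ^ 124 * KC ^ 1) * ((pv 0 0 0 θ - 9 / 4 : ℝ) : ℂ) := by
  simp only [E7, ev_mul, ev_add, ev_c, ev_X, ev_pr]
  have : KC = 2 ^ 80 := rfl
  rw [this]
  push_cast; ring

theorem ev_E8 (θ : ℝ) : ev θ E8 = (2 * zz θ ^ 126 * KC ^ 1) *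
    (((pv 1 1 0 θ - Real.cos θ * pv 1 0 0 θ) * (4 + 2 * Real.cos θ) - 9 / 2 : ℝ) : ℂ) := by
  have h1 := zz_sq_add θ
  simp only [E8, ev_mul, ev_add, ev_sub, ev_c, ev_X, ev_tX, ev_pr]
  have h2 : ((1 : ℤ) : ℂ) = 1 := by norm_num
  rw [h2, h1]
  have : KC = 2 ^ 80 := rfl
  rw [this]
  push_cast; ring

theorem bound_E7 (B dd : ℕ) (h : chk 124 dat B dd (2 ^ 81) E7 = true) (θ : ℝ) :
    |pv 0 0 0 θ - 9 / 4| ≤ 2 := by
  refine extract θ _ _ _ _ h _ _ _ _ (norm_u2 θ 124 1) (by positivity) (ev_E7 θ) ?_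
  norm_num

theorem bound_E8 (B dd : ℕ) (h : chk 124 dat B dd (2 ^ 83) E8 = true) (θ : ℝ) :
    |(pv 1 1 0 θ - Real.cos θ * pv 1 0 0 θ) * (4 + 2 * Real.cos θ) - 9 / 2| ≤ 4 := by
  have hn : ‖(2 * zz θ ^ 126 * KC ^ 1 : ℂ)‖ = 2 ^ 81 := by
    rw [norm_mul, norm_mul, norm_pow, norm_pow, zz_norm, KC_norm]
    norm_num
  refine extract θ _ _ _ _ h _ _ _ _ hn (by positivity) (ev_E8 θ) ?_
  norm_num

end Pool.Agent.KS6_22.TBP.H
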