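import Pool.Agent.KS6_22.TBP.H.Exprs

set_option autoImplicit false

open Complex

namespace Pool.Agent.KS6_22.TBP.H

/-- the point `e^{iθ}` -/
noncomputable def zz (θ : ℝ) : ℂ := Complex.exp (θ * Complex.I)

theorem zz_norm (θ : ℝ) : ‖zz θ‖ = 1 := Complex.norm_exp_ofReal_mul_I θ

theorem zz_ne (θ : ℝ) : zz θ ≠ 0 := Complex.exp_ne_zero _

theorem zz_conj (θ : ℝ) : (starRingEnd ℂ) (zz θ) = (zz θ)⁻¹ := by
  unfold zz
  rw [← Complex.exp_conj, ← Complex.exp_neg]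
  congr 1
  simp

theorem zz_deriv (θ : ℝ) : HasDerivAt zz (zz θ * Complex.I) θ := by
  have h1 : HasDerivAt (fun θ : ℝ => (θ : ℂ) * Complex.I) (1 * Complex.I) θ :=
    (Complex.ofRealCLM.hasDerivAt (x := θ)).mul_const _
  have h2 := h1.cexp
  rw [one_mul] at h2
  exact h2

theorem zz_sq_sub (θ : ℝ) : zz θ ^ 2 - 1 = 2 * Complex.I * Real.sin θ * zz θ := by
  have h1 : zz θ = Complex.cos θ + Complex.sin θ * Complex.I := by
    unfold zz; rw [Complex.exp_mul_I]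
  rw [h1, Complex.ofReal_sin]
  have h2 := Complex.sin_sq_add_cos_sq (θ : ℂ)
  linear_combination h2 + (-(Complex.sin (θ:ℂ))^2) * Complex.I_sq

theorem zz_sq_add (θ : ℝ) : zz θ ^ 2 + 1 = 2 * Real.cos θ * zz θ := by
  have h1 : zz θ = Complex.cos θ + Complex.sin θ * Complex.I := by
    unfold zz; rw [Complex.exp_mul_I]
  rw [h1, Complex.ofReal_cos]
  have h2 := Complex.sin_sq_add_cos_sq (θ : ℂ)
  linear_combination (-1 : ℂ) * h2 + ((Complex.sin (θ:ℂ))^2) * Complex.I_sq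

/-- cosine polynomial with half-list `l` -/
noncomputable def cosL (l : List ℤ) (θ : ℝ) : ℝ := 2 * (hn (zz θ) l).re - ((l.headD 0 : ℤ) : ℝ)

/-- its derivative -/
noncomputable def sinL (l : List ℤ) (θ : ℝ) : ℝ := -2 * (hn (zz θ) (dl 0 l)).im

theorem hn_deriv (l : List ℤ) (θ : ℝ) :
    HasDerivAt (fun θ => hn (zz θ) l) (Complex.I * hn (zz θ) (dl 0 l)) θ := by
  induction l with
  | nil => simpa [hn, dl] using hasDerivAt_const θ (0 : ℂ)
  | cons a l ih =>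
    have h1 := ((zz_deriv θ).mul ih).const_add (a : ℂ)
    simp only [hn]
    refine h1.congr_deriv ?_
    simp only [dl, hn]
    have h2 := hn_dl_succ (zz θ) l 0
    rw [h2]
    push_cast
    ring

theorem cosL_deriv (l : List ℤ) (θ : ℝ) : HasDerivAt (cosL l) (sinL l θ) θ := by
  have h1 := hn_deriv l θ
  have h2 : HasDerivAt (fun θ => (hn (zz θ) l).re) (Complex.I * hn (zz θ) (dl 0 l)).re θ :=
    (Complex.reCLM.hasFDerivAt.comp_hasDerivAt θ h1)
  have h3 := (h2.const_mul 2).sub_const ((l.headD 0 : ℤ) : ℝ)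
  refine h3.congr_deriv ?_
  simp [sinL]

theorem cosL_cont (l : List ℤ) : Continuous (cosL l) :=
  continuous_iff_continuousAt.mpr fun θ => (cosL_deriv l θ).continuousAt

theorem sinL_cont (l : List ℤ) : Continuous (sinL l) := by
  unfold sinL
  have h1 : Continuous (fun θ => hn (zz θ) (dl 0 l)) :=
    continuous_iff_continuousAt.mpr fun θ => (hn_deriv (dl 0 l) θ).continuousAt
  exact continuous_const.mul (Complex.continuous_im.comp h1)

theorem hn_conj (z : ℂ) (l : List ℤ) : hn ((starRingEnd ℂ) z) l = (starRingEnd ℂ) (hn z l) :=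
  (hn_map (starRingEnd ℂ) z l).symm

theorem cosL_cast (l : List ℤ) (θ : ℝ) :
    (cosL l θ : ℂ) = hn (zz θ) l + hn (zz θ)⁻¹ l - ((l.headD 0 : ℤ) : ℂ) := by
  rw [← zz_conj, hn_conj, cosL, Complex.add_conj]
  push_cast
  ring

theorem sinL_cast (l : List ℤ) (θ : ℝ) :
    (sinL l θ : ℂ) = Complex.I * (hn (zz θ) (dl 0 l) - hn (zz θ)⁻¹ (dl 0 l)) := by
  rw [← zz_conj, hn_conj, sinL, Complex.sub_conj]
  push_cast
  linear_combination (-2 * ((hn (zz θ) (dl 0 l)).im : ℂ)) * Complex.I_sq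

theorem SPe_eq (D : ℕ) (l : List ℤ) (hl : l.length = D + 1) (θ : ℝ) :
    SPe D (zz θ) l = zz θ ^ D * (cosL l θ : ℂ) := by
  have h1 := hn_reverse (zz θ) (zz_ne θ) l
  rw [hl] at h1
  have h2 : hn (zz θ) l.reverse = zz θ ^ D * hn (zz θ)⁻¹ l := by
    apply mul_left_cancel₀ (zz_ne θ)
    rw [h1]; ring
  rw [SPe, h2, cosL_cast]
  ring

theorem DPe_eq (D : ℕ) (l : List ℤ) (hl : l.length = D + 1) (θ : ℝ) :
    DPe D (zz θ) l = -Complex.I * zz θ ^ D * (sinL l θ : ℂ) := by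
  have h1 := hn_reverse (zz θ) (zz_ne θ) (dl 0 l)
  rw [dl_length, hl] at h1
  have h2 : hn (zz θ) (dl 0 l).reverse = zz θ ^ D * hn (zz θ)⁻¹ (dl 0 l) := by
    apply mul_left_cancel₀ (zz_ne θ)
    rw [h1]; ring
  rw [DPe, h2, sinL_cast]
  linear_combination (zz θ ^ D * (hn (zz θ) (dl 0 l) - hn (zz θ)⁻¹ (dl 0 l))) * Complex.I_sq

theorem hn_le (l : List ℤ) (z : ℂ) (hz : ‖z‖ = 1) : ‖hn z l‖ ≤ la l := by
  induction l with
  | nil => simp [hn, la]
  | cons a l ih =>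
    simp only [hn, la]
    refine (norm_add_le _ _).trans ?_
    rw [norm_mul, hz, one_mul]
    push_cast
    apply add_le_add _ ih
    simp

/-- `|cosL| ≤ 3 la`; crude -/
theorem cosL_le (l : List ℤ) (θ : ℝ) : |cosL l θ| ≤ 2 * la l := by
  cases l with
  | nil => simp [cosL, hn, la]
  | cons a l =>
    have h1 : cosL (a :: l) θ = a + 2 * (zz θ * hn (zz θ) l).re := by
      simp [cosL, hn]; ring
    rw [h1]
    refine (abs_add_le _ _).trans ?_
    rw [abs_mul, abs_of_pos (by norm_num : (0:ℝ) < 2)]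
    have h2 : |(zz θ * hn (zz θ) l).re| ≤ la l := by
      refine (Complex.abs_re_le_norm _).trans ?_
      rw [norm_mul, zz_norm, one_mul]
      exact hn_le l _ (zz_norm θ)
    have h3 : |(a : ℝ)| = (a.natAbs : ℝ) := by simp
    rw [h3]
    simp only [la]
    push_cast
    have h4 : (0 : ℝ) ≤ |(a:ℝ)| := abs_nonneg _
    linarith

theorem zz_zero : zz 0 = 1 := by simp [zz]
theorem zz_pi : zz Real.pi = -1 := by simp [zz, Complex.exp_pi_mul_I]

theorem cosL_zero (l : List ℤ) : cosL l 0 = ((2 * hnI 1 l - l.headD 0 : ℤ) : ℝ) := by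
  rw [cosL, zz_zero, hnI_eq]
  have h1 := hn_map (Int.castRingHom ℂ) (1 : ℤ) l
  have h2 : hn (1 : ℂ) l = ((hn (1 : ℤ) l : ℤ) : ℂ) := by
    rw [eq_intCast] at h1
    simpa using h1.symm
  rw [h2]
  push_cast
  simp

theorem cosL_pi (l : List ℤ) : cosL l Real.pi = ((2 * hnI (-1) l - l.headD 0 : ℤ) : ℝ) := by
  rw [cosL, zz_pi, hnI_eq]
  have h1 := hn_map (Int.castRingHom ℂ) (-1 : ℤ) l
  have h2 : hn (-1 : ℂ) l = ((hn (-1 : ℤ) l : ℤ) : ℂ) := by
    rw [eq_intCast] at h1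
    simpa using h1.symm
  rw [h2]
  push_cast
  simp

end Pool.Agent.KS6_22.TBP.H
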